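import Pool.Agent.L7h59.PP.Stm

/-!
# Project PP, job EXA
-/

set_option autoImplicit false

namespace Pool.Agent.L7h42.PP

open scoped Matrix
open Pool.Agent.H919R4.ZS (FinRes toRed L2)
open Pool.Agent.TH38.ZT (ExAt exAt_iff)
open Pool.Agent.Q169.PT (Rep Tempered Van1 reg dm mk mk_apply DD_apply reg_tempered)
open Pool.Agent.Q111.FT (HH DD DD_DD Ex)
open Pool.Agent.L7h59.PP
open ContinuousLinearMap (adjoint)

noncomputable section

/-- An operator which is bounded below on the orthogonal complement of its kernel and has an injective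
adjoint is onto. -/
theorem onto {E F : Type} [NormedAddCommGroup E] [InnerProductSpace ℂ E] [CompleteSpace E]
    [NormedAddCommGroup F] [InnerProductSpace ℂ F] [CompleteSpace F] (B : E →L[ℂ] F) (δ : ℝ)
    (hδ : 0 < δ) (hB : ∀ v, (∀ u, B u = 0 → inner ℂ u v = 0) → δ * ‖v‖ ^ 2 ≤ ‖B v‖ ^ 2)
    (hadj : ∀ z, adjoint B z = 0 → z = 0) (y : F) : ∃ v, B v = y := by
  let K : Submodule ℂ E := LinearMap.ker (B : E →ₗ[ℂ] F)
  have hKm : ∀ u, u ∈ K ↔ B u = 0 := fun u => LinearMap.mem_ker
  have hKc : IsClosed (K : Set E) := by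
    have h : (K : Set E) = B ⁻¹' {0} := by
      ext u
      exact hKm u
    rw [h]
    exact isClosed_singleton.preimage B.continuous
  have : CompleteSpace K := hKc.completeSpace_coe
  let T : Kᗮ →L[ℂ] F := B.comp (Kᗮ).subtypeL
  have hT : ∀ v : Kᗮ, ‖v‖ ≤ (⟨√(1 / δ), Real.sqrt_nonneg _⟩ : NNReal) * ‖T v‖ := by
    intro v
    have h1 := hB v (fun u hu => v.2 u ((hKm u).2 hu))
    have h2 : T v = B v := rfl
    have h3 : ‖v‖ = ‖(v : E)‖ := rfl
    rw [h2, h3]
    show ‖(v : E)‖ ≤ √(1 / δ) * ‖B v‖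
    rw [← Real.sqrt_sq (norm_nonneg (v : E)), ← Real.sqrt_sq (norm_nonneg (B v)),
      ← Real.sqrt_mul (by positivity)]
    apply Real.sqrt_le_sqrt
    rw [one_div, inv_mul_eq_div, le_div_iff₀ hδ]
    linarith
  have hanti : AntilipschitzWith ⟨√(1 / δ), Real.sqrt_nonneg _⟩ T :=
    AddMonoidHomClass.antilipschitz_of_bound T hT
  have hcl : IsClosed (Set.range T) := hanti.isClosed_range T.uniformContinuous
  let R : Submodule ℂ F := LinearMap.range (T : Kᗮ →ₗ[ℂ] F)
  have hRm : ∀ z, z ∈ R ↔ ∃ v, T v = z := fun z => LinearMap.mem_range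
  have hRc : IsClosed (R : Set F) := by
    have h : (R : Set F) = Set.range T := by
      ext z
      exact hRm z
    rw [h]
    exact hcl
  have : CompleteSpace R := hRc.completeSpace_coe
  have hbot : Rᗮ = ⊥ := by
    rw [Submodule.eq_bot_iff]
    intro z hz
    apply hadj
    refine ext_inner_right ℂ fun v => ?_
    rw [ContinuousLinearMap.adjoint_inner_left, inner_zero_left]
    obtain ⟨a, ha, b, hb, rfl⟩ := K.exists_add_mem_mem_orthogonal v
    rw [map_add, (hKm a).1 ha, zero_add]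
    have h1 : inner ℂ (B b) z = 0 := hz (B b) ((hRm _).2 ⟨⟨b, hb⟩, rfl⟩)
    rw [← inner_conj_symm, h1, map_zero]
  have htop : R = ⊤ := (Submodule.orthogonal_eq_bot_iff).1 hbot
  obtain ⟨v, hv⟩ := (hRm y).1 (htop ▸ Submodule.mem_top)
  exact ⟨v, hv⟩

theorem s_EXA : S_EXA := by
  intro G _ hG X hlen hvan hadj
  -- the regular representation has no invariant vectors
  have hri : ∀ f : L2 G, (∀ g, (reg G).hom g f = f) → f = 0 := by
    obtain ⟨ρ, hρ, -, hρi, -⟩ := Pool.Agent.Q154.PT.Twist.twist G 1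
    intro f hf
    refine hρi hG f fun g => ?_
    rw [hρ, hf]
    simp
  have d1 : ∀ v, dm (reg G) X 0 v = 0 → v = 0 := Pool.Agent.Q169.PT.inv G (L2 G) X (reg G) hri
  have d2 : ∀ v : Fin (X.n 1) → L2 G, dm (reg G) X 1 v = 0 → ∃ w, dm (reg G) X 0 w = v :=
    Pool.Agent.Q169.PT.fhone G (L2 G) X (reg G) (hvan (L2 G) (reg G) reg_tempered)
  obtain ⟨δ, hδ, d5⟩ := Pool.Agent.Q169.PT.Cl.closed Pool.Agent.Q169.PT.Ul.ultra
    Pool.Agent.Q169.PT.fhone G (L2 G) X (reg G) reg_tempered hvan
  have hsurj : ∀ y : HH G (X.n 2), ∃ v, DD X 1 v = y := by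
    refine onto (DD X 1) δ hδ (fun v hv => ?_) hadj
    have h := d5 (fun j => v j) (fun w => by
      have h1 := hv (DD X 0 (mk (X.n 0) w)) (DD_DD X 0 _)
      rw [PiLp.inner_apply] at h1
      rw [← h1]
      refine Finset.sum_congr rfl fun k _ => ?_
      rw [DD_apply]
      rfl)
    rw [PiLp.norm_sq_eq_of_L2, PiLp.norm_sq_eq_of_L2]
    refine h.trans (le_of_eq (Finset.sum_congr rfl fun k _ => ?_))
    rw [DD_apply]
  have hex : Ex X := by
    constructor
    · intro v hv
      have h := d1 (fun j => v j) (by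
        funext k
        rw [← DD_apply, hv]
        rfl)
      apply PiLp.ext
      intro j
      exact congrFun h j
    · intro i v hv
      match i with
      | 0 =>
        obtain ⟨u, hu⟩ := d2 (fun j => v j) (by
          funext k
          rw [← DD_apply, hv]
          rfl)
        refine ⟨mk (X.n 0) u, ?_⟩
        apply PiLp.ext
        intro j
        rw [DD_apply]
        exact congrFun hu j
      | 1 => exact hsurj v
      | i + 2 =>
        refine ⟨0, ?_⟩
        apply PiLp.ext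
        intro j
        have hn : X.n (i + 2 + 1) = 0 := X.n_eq_zero _ (by omega)
        exact (Fin.cast hn j).elim0
  exact fun i => (exAt_iff X (toRed G) i).1 (hex.exAt i)

end

end Pool.Agent.L7h42.PP
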